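import Mathlib

namespace Pool.Agent.H.MP_0ca78d_co

open SimpleGraph

/-- A cyclic sequence of `n ≥ 3` distinct vertices with consecutive ones adjacent gives a
cycle of length `n` through all the corresponding edges. -/
theorem exists_cycle {V : Type*} (G : SimpleGraph V) (n : ℕ) (hn : 3 ≤ n) (f : ℕ → V)
    (hinj : ∀ i < n, ∀ j < n, f i = f j → i = j)
    (hadj : ∀ i < n, G.Adj (f i) (f (i + 1)))
    (hclose : f n = f 0) :
    ∃ (x : V) (c : G.Walk x x), c.IsCycle ∧ c.length = n ∧
      (∀ i < n, s(f i, f (i + 1)) ∈ c.edges) := by
  classical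
  -- the path f 0, ..., f m for m < n
  have key : ∀ m, m < n → ∃ p : G.Walk (f 0) (f m), p.support = (List.range (m + 1)).map f ∧
      p.length = m ∧ (∀ i, i + 1 ≤ m → s(f i, f (i + 1)) ∈ p.edges) := by
    intro m
    induction m with
    | zero =>
      intro _
      exact ⟨Walk.nil, by simp, rfl, by intro i hi; omega⟩
    | succ m ih =>
      intro hm
      obtain ⟨p, hp, hl, he⟩ := ih (by omega)
      refine ⟨p.concat (hadj m (by omega)), ?_, by simp [hl], ?_⟩
      · rw [Walk.support_concat, hp, List.range_succ (n := m + 1), List.map_append]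
        simp
      · intro i hi
        rw [Walk.edges_concat]
        rcases Nat.lt_or_ge i m with h | h
        · have := he i (by omega)
          simp [this]
        · have : i = m := by omega
          subst this
          simp
  obtain ⟨p, hp, hl, he⟩ := key (n - 1) (by omega)
  have hpath : p.IsPath := by
    apply Walk.IsPath.mk'
    rw [hp]
    apply List.Nodup.map_on _ List.nodup_range
    intro x hx y hy hxy
    rw [List.mem_range] at hx hy
    exact hinj x (by omega) y (by omega) hxy
  have hlast : G.Adj (f (n - 1)) (f 0) := by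
    have := hadj (n - 1) (by omega)
    have h1 : n - 1 + 1 = n := by omega
    rw [h1, hclose] at this
    exact this
  refine ⟨f (n - 1), Walk.cons hlast p, ?_, by simp [hl]; omega, ?_⟩
  · rw [Walk.cons_isCycle_iff]
    refine ⟨hpath, ?_⟩
    intro hmem
    have h1 : s(f 0, f (n - 1)) ∈ p.edges := by rw [Sym2.eq_swap]; exact hmem
    have := hpath.length_eq_one_of_mem_edges h1
    omega
  · intro i hi
    rw [Walk.edges_cons]
    rcases Nat.lt_or_ge (i + 1) n with h | h
    · exact List.mem_cons_of_mem _ (he i (by omega))
    · have h1 : i = n - 1 := by omega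
      have h2 : i + 1 = n := by omega
      rw [h2, hclose, h1]
      exact List.mem_cons_self

end Pool.Agent.H.MP_0ca78d_co
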