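import Mathlib

namespace Pool.Agent.H.MP_0ca78d_co

/-- `G` is `k`-edge-proper: every edge lies in a cycle of length `i` for each `3 ≤ i ≤ k`,
and every edge lies in a Hamilton cycle. -/
def EdgeProper {V : Type*} [DecidableEq V] (k : ℕ) (G : SimpleGraph V) : Prop :=
  ∀ u v : V, G.Adj u v →
    (∀ i : ℕ, 3 ≤ i → i ≤ k →
      ∃ (x : V) (c : G.Walk x x), c.IsCycle ∧ c.length = i ∧ s(u, v) ∈ c.edges) ∧
    ∃ (x : V) (c : G.Walk x x), c.IsHamiltonianCycle ∧ s(u, v) ∈ c.edges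

end Pool.Agent.H.MP_0ca78d_co
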