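import Pool.Agent.H.MP_0ca78d_co.Neck

namespace Pool.Agent.H.MP_0ca78d_co

open SimpleGraph

/-- local table: three different neighbours of the inner vertices of the gadget -/
def nbT : List (ℕ × ℕ × ℕ) := [
  (0, 0, 0), (0, 2, 3), (0, 1, 3), (1, 2, 4), (1, 3, 5), (4, 6, 7), (4, 5, 7), (5, 6, 8), (6, 7,
  9), (6, 8, 10), (6, 9, 11), (6, 10, 12), (10, 11, 13), (10, 12, 14), (10, 13, 15), (10, 14,
  16), (15, 17, 18), (15, 16, 18), (16, 17, 19), (17, 18, 20), (17, 19, 21), (17, 20, 22), (17,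
  21, 23), (21, 22, 24), (21, 23, 25), (21, 24, 26), (1, 21, 25), (1, 26, 28), (1, 4, 27), (4,
  28, 30)]

/-- validity of the table -/
def nbOK (i : ℕ) : Bool :=
  let p := nbT.getD i (0, 0, 0)
  decide (p.1 < p.2.1) && decide (p.2.1 < p.2.2) && decide (p.2.2 ≤ 30) && adjB i p.1 &&
    adjB i p.2.1 && adjB i p.2.2

theorem nb_ok : ((List.range 30).all fun i => decide (i = 0) || nbOK i) = true := by decide +kernel

theorem inner_nb {i : ℕ} (h0 : i ≠ 0) (h : i < 30) :
    ∃ a b c : ℕ, a < b ∧ b < c ∧ c ≤ 30 ∧ Adj i a ∧ Adj i b ∧ Adj i c := by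
  have h1 := List.all_eq_true.1 nb_ok i (List.mem_range.2 h)
  simp only [h0, decide_false, Bool.false_or, nbOK, Bool.and_eq_true, decide_eq_true_eq,
    adjB_iff] at h1
  obtain ⟨⟨⟨⟨⟨h2, h3⟩, h4⟩, h5⟩, h6⟩, h7⟩ := h1
  exact ⟨_, _, _, h2, h3, h4, h5, h6, h7⟩

theorem three_le_of {V : Type*} [Finite V] {G : SimpleGraph V} {v x y z : V} (hx : G.Adj v x)
    (hy : G.Adj v y) (hz : G.Adj v z) (hxy : x ≠ y) (hxz : x ≠ z) (hyz : y ≠ z) :
    3 ≤ (G.neighborSet v).ncard := by
  classical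
  have h : ({x, y, z} : Set V) ⊆ G.neighborSet v := by
    intro w hw
    simp only [Set.mem_insert_iff, Set.mem_singleton_iff] at hw
    rcases hw with rfl | rfl | rfl
    · exact hx
    · exact hy
    · exact hz
  have h2 : ({x, y, z} : Set V).ncard = 3 := Set.ncard_eq_three.2 ⟨x, y, z, hxy, hxz, hyz, rfl⟩
  rw [← h2]
  exact Set.ncard_le_ncard h (Set.toFinite _)

theorem neck_degree {t : ℕ} (ht : 2 ≤ t) (v : Fin (30 * t)) :
    3 ≤ ((neck t ht).neighborSet v).ncard := by
  have hv := v.2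
  have hm : v.1 / 30 < t := by omega
  have hv' : v = phi t ht (v.1 / 30) (v.1 % 30) := by
    apply Fin.ext
    show v.1 = (30 * (v.1 / 30) + v.1 % 30) % (30 * t)
    rw [show 30 * (v.1 / 30) + v.1 % 30 = v.1 by omega, Nat.mod_eq_of_lt hv]
  generalize v.1 / 30 = m at hm hv'
  by_cases h0 : v.1 % 30 = 0
  · rw [h0] at hv'
    -- the previous block
    obtain ⟨m', hm', he⟩ : ∃ m' < t, (m' + 1) % t = m % t := by
      rcases Nat.eq_zero_or_pos m with h | h
      · exact ⟨t - 1, by omega, by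
          rw [Nat.sub_add_cancel (by omega), Nat.mod_self, h, Nat.zero_mod]⟩
      · exact ⟨m - 1, by omega, by rw [Nat.sub_add_cancel h]⟩
    have hv2 : v = phi t ht m' 30 := by
      rw [hv']
      apply Fin.ext
      show (30 * m + 0) % (30 * t) = (30 * m' + 30) % (30 * t)
      rw [show 30 * m' + 30 = 30 * (m' + 1) by ring, Nat.add_zero, Nat.mul_mod_mul_left,
        Nat.mul_mod_mul_left, he]
    have a1 : (neck t ht).Adj v (phi t ht m 1) := by
      rw [hv']; exact neck_adj ht hm (by norm_num) (by norm_num) (Or.inl (by decide))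
    have a2 : (neck t ht).Adj v (phi t ht m 2) := by
      rw [hv']; exact neck_adj ht hm (by norm_num) (by norm_num) (Or.inl (by decide))
    have a3 : (neck t ht).Adj v (phi t ht m' 29) := by
      rw [hv2]; exact neck_adj ht hm' (by norm_num) (by norm_num) (Or.inr (by decide))
    have e1 : (phi t ht m 1).1 = 30 * m + 1 := Nat.mod_eq_of_lt (by omega)
    have e2 : (phi t ht m 2).1 = 30 * m + 2 := Nat.mod_eq_of_lt (by omega)
    have e3 : (phi t ht m' 29).1 = 30 * m' + 29 := Nat.mod_eq_of_lt (by omega)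
    refine three_le_of a1 a2 a3 ?_ ?_ ?_
    · intro h; have := congrArg Fin.val h; omega
    · intro h; have := congrArg Fin.val h; omega
    · intro h; have := congrArg Fin.val h; omega
  · obtain ⟨a, b, c, hab, hbc, hc, h1, h2, h3⟩ := inner_nb h0 (Nat.mod_lt _ (by norm_num))
    have hi : v.1 % 30 ≤ 30 := (Nat.mod_lt _ (by norm_num)).le
    rw [hv']
    refine three_le_of (neck_adj ht hm hi (by omega) h1) (neck_adj ht hm hi (by omega) h2)
      (neck_adj ht hm hi hc h3) ?_ ?_ ?_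
    · intro h; have := phi_inj ht hm (by omega) (by omega) h; omega
    · intro h; have := phi_inj ht hm (by omega) (by omega) h; omega
    · intro h; have := phi_inj ht hm (by omega) (by omega) h; omega

theorem neck_hamiltonian {t : ℕ} (ht : 2 ≤ t) : (neck t ht).IsHamiltonian := by
  intro _
  obtain ⟨x, c, hc, _⟩ := neck_ham ht (m := 0) (by omega) (e := (0, 1)) (by decide)
  exact ⟨x, c, hc⟩

end Pool.Agent.H.MP_0ca78d_co
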