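import Pool.Agent.H.MP_0ca78d_co.Data

namespace Pool.Agent.H.MP_0ca78d_co

/-- adjacency in the gadget -/
def Adj (i j : ℕ) : Prop := (i, j) ∈ E ∨ (j, i) ∈ E

def adjB (i j : ℕ) : Bool := E.contains (i, j) || E.contains (j, i)

def chainB : List ℕ → Bool
  | a :: b :: t => adjB a b && chainB (b :: t)
  | _ => true

def nodupB : List ℕ → Bool
  | a :: t => !(t.contains a) && nodupB t
  | [] => true

def pairIn (i j : ℕ) : List ℕ → Bool
  | a :: b :: t => ((a == i) && (b == j)) || ((a == j) && (b == i)) || pairIn i j (b :: t)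
  | _ => false

/-- validity of a closed sequence of length `L + 1` -/
def validCyc (L : ℕ) (c : List ℕ) : Bool :=
  (c.length == L + 1) && chainB c && nodupB c.dropLast && (c.getD L 0 == c.getD 0 0) &&
    c.all (fun x => decide (x ≤ 30))

def validHam (c : List ℕ) : Bool :=
  (c.length == 31) && chainB c && nodupB c && (c.getD 0 0 == 0) && (c.getD 30 0 == 30) &&
    c.all (fun x => decide (x ≤ 30))

/-- group number `a` covers every edge by valid cycles of length `a + 3` -/
def groupOK (a : ℕ) : Bool :=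
  (cyc.getD a []).all (validCyc (a + 3)) &&
    E.all (fun e => (cyc.getD a []).any (fun c => pairIn e.1 e.2 c))

def hamOK : Bool := hams.all validHam && E.all (fun e => hams.any (fun c => pairIn e.1 e.2 c))

theorem groups_ok : (List.range 24).all groupOK = true := by decide +kernel

theorem ham_ok : hamOK = true := by decide +kernel

theorem adjB_iff (i j : ℕ) : adjB i j = true ↔ Adj i j := by
  simp [adjB, Adj]

theorem chainB_spec : ∀ (c : List ℕ), chainB c = true → ∀ i, i + 1 < c.length →
    Adj (c.getD i 0) (c.getD (i + 1) 0) := by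
  intro c
  induction c with
  | nil => intro _ i hi; simp at hi
  | cons a t ih =>
    intro h i hi
    match t, ih, h, hi with
    | [], _, _, hi => simp at hi
    | b :: t, ih, h, hi =>
      rw [chainB, Bool.and_eq_true] at h
      match i with
      | 0 => simpa using (adjB_iff a b).1 h.1
      | i + 1 =>
        have := ih h.2 i (by simpa using hi)
        simpa using this

theorem nodupB_spec : ∀ (c : List ℕ), nodupB c = true → c.Nodup := by
  intro c
  induction c with
  | nil => intro _; simp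
  | cons a t ih =>
    intro h
    rw [nodupB, Bool.and_eq_true] at h
    rw [List.nodup_cons]
    refine ⟨?_, ih h.2⟩
    have h1 := h.1
    simpa using h1

theorem pairIn_spec (i j : ℕ) : ∀ (c : List ℕ), pairIn i j c = true → ∃ a, a + 1 < c.length ∧
    ((c.getD a 0 = i ∧ c.getD (a + 1) 0 = j) ∨ (c.getD a 0 = j ∧ c.getD (a + 1) 0 = i)) := by
  intro c
  induction c with
  | nil => intro h; simp [pairIn] at h
  | cons a t ih =>
    intro h
    match t, ih, h with
    | [], _, h => simp [pairIn] at h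
    | b :: t, ih, h =>
      rw [pairIn, Bool.or_eq_true] at h
      rcases h with h | h
      · refine ⟨0, by simp, ?_⟩
        simpa using h
      · obtain ⟨a', ha', h'⟩ := ih h
        refine ⟨a' + 1, by simpa using ha', ?_⟩
        simpa using h'

theorem getD_inj {c : List ℕ} (h : c.Nodup) {i j : ℕ} (hi : i < c.length) (hj : j < c.length)
    (hij : c.getD i 0 = c.getD j 0) : i = j := by
  rw [List.getD_eq_getElem _ _ hi, List.getD_eq_getElem _ _ hj] at hij
  exact (List.Nodup.getElem_inj_iff h).1 hij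

theorem unit_cycle {e : ℕ × ℕ} (he : e ∈ E) {L : ℕ} (h3 : 3 ≤ L) (h26 : L ≤ 26) :
    ∃ f : ℕ → ℕ, (∀ i ≤ L, f i ≤ 30) ∧ (∀ i < L, ∀ j < L, f i = f j → i = j) ∧
      (∀ i < L, Adj (f i) (f (i + 1))) ∧ f L = f 0 ∧
      ∃ i < L, (f i = e.1 ∧ f (i + 1) = e.2) ∨ (f i = e.2 ∧ f (i + 1) = e.1) := by
  have hg := groups_ok
  rw [List.all_eq_true] at hg
  have hgL := hg (L - 3) (by rw [List.mem_range]; omega)
  rw [groupOK, Bool.and_eq_true, List.all_eq_true, List.all_eq_true] at hgL
  have hL3 : L - 3 + 3 = L := by omega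
  rw [hL3] at hgL
  have h1 := hgL.2 e he
  rw [List.any_eq_true] at h1
  obtain ⟨c, hc, hp⟩ := h1
  have hv := hgL.1 c hc
  rw [validCyc] at hv
  simp only [Bool.and_eq_true, beq_iff_eq, List.all_eq_true, decide_eq_true_eq] at hv
  obtain ⟨⟨⟨⟨hlen, hchain⟩, hnd⟩, hcl⟩, hle⟩ := hv
  have hnd' := nodupB_spec _ hnd
  have hdl : c.dropLast.length = L := by rw [List.length_dropLast, hlen]; omega
  have hgd : ∀ i < L, c.dropLast.getD i 0 = c.getD i 0 := by
    intro i hi
    rw [List.getD_eq_getElem _ _ (by omega), List.getD_eq_getElem _ _ (by omega)]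
    exact List.getElem_dropLast _
  refine ⟨fun i => c.getD i 0, ?_, ?_, ?_, hcl, ?_⟩
  · intro i hi
    have hi' : i < c.length := by omega
    show c.getD i 0 ≤ 30
    rw [List.getD_eq_getElem _ _ hi']
    exact hle _ (List.getElem_mem hi')
  · intro i hi j hj hij
    apply getD_inj hnd' (by omega) (by omega)
    rw [hgd i hi, hgd j hj]
    exact hij
  · intro i hi
    exact chainB_spec c hchain i (by omega)
  · obtain ⟨a, ha, h⟩ := pairIn_spec _ _ c hp
    exact ⟨a, by omega, h⟩

theorem unit_ham {e : ℕ × ℕ} (he : e ∈ E) :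
    ∃ f : ℕ → ℕ, (∀ i ≤ 30, f i ≤ 30) ∧ (∀ i ≤ 30, ∀ j ≤ 30, f i = f j → i = j) ∧
      (∀ i < 30, Adj (f i) (f (i + 1))) ∧ f 0 = 0 ∧ f 30 = 30 ∧
      ∃ i < 30, (f i = e.1 ∧ f (i + 1) = e.2) ∨ (f i = e.2 ∧ f (i + 1) = e.1) := by
  have hg := ham_ok
  rw [hamOK, Bool.and_eq_true, List.all_eq_true, List.all_eq_true] at hg
  have h1 := hg.2 e he
  rw [List.any_eq_true] at h1
  obtain ⟨c, hc, hp⟩ := h1
  have hv := hg.1 c hc
  rw [validHam] at hv
  simp only [Bool.and_eq_true, beq_iff_eq, List.all_eq_true, decide_eq_true_eq] at hv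
  obtain ⟨⟨⟨⟨⟨hlen, hchain⟩, hnd⟩, h0⟩, h30⟩, hle⟩ := hv
  have hnd' := nodupB_spec _ hnd
  refine ⟨fun i => c.getD i 0, ?_, ?_, ?_, h0, h30, ?_⟩
  · intro i hi
    have hi' : i < c.length := by omega
    show c.getD i 0 ≤ 30
    rw [List.getD_eq_getElem _ _ hi']
    exact hle _ (List.getElem_mem hi')
  · intro i hi j hj hij
    exact getD_inj hnd' (by omega) (by omega) hij
  · intro i hi
    exact chainB_spec c hchain i (by omega)
  · obtain ⟨a, ha, h⟩ := pairIn_spec _ _ c hp
    exact ⟨a, by omega, h⟩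

theorem identity_chain : ∀ i < 30, Adj i (i + 1) := by
  have h : (List.range 30).all (fun i => adjB i (i + 1)) = true := by decide +kernel
  rw [List.all_eq_true] at h
  intro i hi
  exact (adjB_iff _ _).1 (h i (List.mem_range.2 hi))

theorem E_lt : ∀ e ∈ E, e.1 < e.2 ∧ e.2 ≤ 30 := by
  have h : E.all (fun e => decide (e.1 < e.2) && decide (e.2 ≤ 30)) = true := by decide +kernel
  rw [List.all_eq_true] at h
  intro e he
  have := h e he
  simpa using this

theorem Adj_ne {i j : ℕ} (h : Adj i j) : i ≠ j := by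
  rcases h with h | h
  · have := (E_lt _ h).1
    simp at this
    omega
  · have := (E_lt _ h).1
    simp at this
    omega

theorem E_length : E.length = 59 := by decide +kernel

end Pool.Agent.H.MP_0ca78d_co
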