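import Pool.Agent.H.MP_0ca78d_co.Defs
import Pool.Agent.H.MP_0ca78d_co.Cyc
import Pool.Agent.H.MP_0ca78d_co.Unit

namespace Pool.Agent.H.MP_0ca78d_co

open SimpleGraph



/-- vertex `i` of block `m` -/
def phi (t : ℕ) (ht : 2 ≤ t) (m i : ℕ) : Fin (30 * t) := ⟨(30 * m + i) % (30 * t), Nat.mod_lt _ (by omega)⟩

theorem phi_inj {t : ℕ} (ht : 2 ≤ t) {m i j : ℕ} (hm : m < t) (hi : i ≤ 30) (hj : j ≤ 30)
    (h : phi t ht m i = phi t ht m j) : i = j := by
  have h' : (30 * m + i) % (30 * t) = (30 * m + j) % (30 * t) := congrArg Fin.val h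
  have hle : 30 * (m + 1) ≤ 30 * t := Nat.mul_le_mul_left _ hm
  rcases Nat.lt_or_ge (30 * m + i) (30 * t) with h1 | h1
  · rw [Nat.mod_eq_of_lt h1] at h'
    rcases Nat.lt_or_ge (30 * m + j) (30 * t) with h2 | h2
    · rw [Nat.mod_eq_of_lt h2] at h'; omega
    · have h3 : 30 * m + j = 30 * t := by omega
      rw [h3, Nat.mod_self] at h'; omega
  · have h3 : 30 * m + i = 30 * t := by omega
    rw [h3, Nat.mod_self] at h'
    rcases Nat.lt_or_ge (30 * m + j) (30 * t) with h2 | h2
    · rw [Nat.mod_eq_of_lt h2] at h'; omega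
    · omega

/-- the necklace of `t` gadgets -/
def neck (t : ℕ) (ht : 2 ≤ t) : SimpleGraph (Fin (30 * t)) :=
  SimpleGraph.fromRel (fun x y => ∃ m < t, ∃ e ∈ E, x = phi t ht m e.1 ∧ y = phi t ht m e.2)

theorem neck_adj {t : ℕ} (ht : 2 ≤ t) {m i j : ℕ} (hm : m < t) (hi : i ≤ 30) (hj : j ≤ 30)
    (h : Adj i j) : (neck t ht).Adj (phi t ht m i) (phi t ht m j) := by
  rw [neck, SimpleGraph.fromRel_adj]
  refine ⟨fun hne => Adj_ne h (phi_inj ht hm hi hj hne), ?_⟩
  rcases h with h | h
  · exact Or.inl ⟨m, hm, _, h, rfl, rfl⟩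
  · exact Or.inr ⟨m, hm, _, h, rfl, rfl⟩

theorem neck_adj_elim {t : ℕ} (ht : 2 ≤ t) {x y : Fin (30 * t)} (h : (neck t ht).Adj x y) :
    ∃ m < t, ∃ e ∈ E, s(x, y) = s(phi t ht m e.1, phi t ht m e.2) := by
  rw [neck, SimpleGraph.fromRel_adj] at h
  obtain ⟨_, ⟨m, hm, e, he, rfl, rfl⟩ | ⟨m, hm, e, he, rfl, rfl⟩⟩ := h
  · exact ⟨m, hm, e, he, rfl⟩
  · exact ⟨m, hm, e, he, Sym2.eq_swap⟩

theorem neck_cycle {t : ℕ} (ht : 2 ≤ t) {m : ℕ} (hm : m < t) {e : ℕ × ℕ} (he : e ∈ E)
    {L : ℕ} (h3 : 3 ≤ L) (h26 : L ≤ 26) :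
    ∃ (x : Fin (30 * t)) (c : (neck t ht).Walk x x), c.IsCycle ∧ c.length = L ∧
      s(phi t ht m e.1, phi t ht m e.2) ∈ c.edges := by
  obtain ⟨f, hle, hinj, hadj, hcl, a, ha, h⟩ := unit_cycle he h3 h26
  obtain ⟨x, c, hc, hlen, hmem⟩ := exists_cycle (neck t ht) L h3 (fun i => phi t ht m (f i))
    (fun i hi j hj hij => hinj i hi j hj (phi_inj ht hm (hle i hi.le) (hle j hj.le) hij))
    (fun i hi => neck_adj ht hm (hle i hi.le) (hle (i + 1) hi) (hadj i hi))
    (by show phi t ht m (f L) = phi t ht m (f 0); rw [hcl])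
  refine ⟨x, c, hc, hlen, ?_⟩
  have := hmem a ha
  rcases h with ⟨h1, h2⟩ | ⟨h1, h2⟩
  · rw [← h1, ← h2]; exact this
  · rw [Sym2.eq_swap, ← h1, ← h2]; exact this

theorem neck_ham {t : ℕ} (ht : 2 ≤ t) {m : ℕ} (hm : m < t) {e : ℕ × ℕ} (he : e ∈ E) :
    ∃ (x : Fin (30 * t)) (c : (neck t ht).Walk x x), c.IsHamiltonianCycle ∧
      s(phi t ht m e.1, phi t ht m e.2) ∈ c.edges := by
  obtain ⟨f, hle, hinj, hadj, h0, h30, a, ha, h⟩ := unit_ham he
  -- local path in block q
  let g : ℕ → ℕ → ℕ := fun q => if q = m then f else fun r => r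
  have gle : ∀ q, ∀ i ≤ 30, g q i ≤ 30 := by
    intro q i hi
    by_cases hq : q = m
    · simp only [g, hq, if_true]; exact hle i hi
    · simp only [g, hq, if_false]; exact hi
  have ginj : ∀ q, ∀ i ≤ 30, ∀ j ≤ 30, g q i = g q j → i = j := by
    intro q i hi j hj hij
    by_cases hq : q = m
    · simp only [g, hq, if_true] at hij; exact hinj i hi j hj hij
    · simp only [g, hq, if_false] at hij; exact hij
  have gadj : ∀ q, ∀ i < 30, Adj (g q i) (g q (i + 1)) := by
    intro q i hi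
    by_cases hq : q = m
    · simp only [g, hq, if_true]; exact hadj i hi
    · simp only [g, hq, if_false]; exact identity_chain i hi
  have g0 : ∀ q, g q 0 = 0 := by
    intro q
    by_cases hq : q = m
    · simp only [g, hq, if_true]; exact h0
    · simp only [g, hq, if_false]
  have g30 : ∀ q, g q 30 = 30 := by
    intro q
    by_cases hq : q = m
    · simp only [g, hq, if_true]; exact h30
    · simp only [g, hq, if_false]
  have glt : ∀ q, ∀ i < 30, g q i < 30 := by
    intro q i hi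
    have h1 := gle q i hi.le
    have h2 : g q i ≠ 30 := by
      intro h3
      have := ginj q i hi.le 30 le_rfl (by rw [h3, g30])
      omega
    omega
  have shift : ∀ q, phi t ht (q + 1) 0 = phi t ht q 30 := by
    intro q
    apply Fin.ext
    show (30 * (q + 1) + 0) % (30 * t) = (30 * q + 30) % (30 * t)
    congr 1
  let F : ℕ → Fin (30 * t) := fun x => phi t ht (x / 30) (g (x / 30) (x % 30))
  -- successor inside a block
  have hF : ∀ q, ∀ r ≤ 30, F (30 * q + r) = phi t ht q (g q r) := by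
    intro q r hr
    rcases Nat.lt_or_ge r 30 with h | h
    · have h1 : (30 * q + r) / 30 = q := by omega
      have h2 : (30 * q + r) % 30 = r := by omega
      simp only [F, h1, h2]
    · have hr' : r = 30 := by omega
      subst hr'
      have h1 : (30 * q + 30) / 30 = q + 1 := by omega
      have h2 : (30 * q + 30) % 30 = 0 := by omega
      simp only [F, h1, h2, g0, g30]
      exact shift q
  have Finj : ∀ x < 30 * t, ∀ y < 30 * t, F x = F y → x = y := by
    intro x hx y hy hxy
    have h1 : (30 * (x / 30) + g (x / 30) (x % 30)) % (30 * t) =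
        (30 * (y / 30) + g (y / 30) (y % 30)) % (30 * t) := congrArg Fin.val hxy
    have hx1 := glt (x / 30) (x % 30) (Nat.mod_lt _ (by norm_num))
    have hy1 := glt (y / 30) (y % 30) (Nat.mod_lt _ (by norm_num))
    have hxt : x / 30 < t := by omega
    have hyt : y / 30 < t := by omega
    have hA : 30 * (x / 30) + g (x / 30) (x % 30) < 30 * t := by omega
    have hB : 30 * (y / 30) + g (y / 30) (y % 30) < 30 * t := by omega
    rw [Nat.mod_eq_of_lt hA, Nat.mod_eq_of_lt hB] at h1
    have hq : x / 30 = y / 30 := by omega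
    rw [hq] at h1
    have h2 : g (y / 30) (x % 30) = g (y / 30) (y % 30) := by omega
    have := ginj (y / 30) (x % 30) (by omega) (y % 30) (by omega) h2
    omega
  have Fadj : ∀ x < 30 * t, (neck t ht).Adj (F x) (F (x + 1)) := by
    intro x hx
    have hxt : x / 30 < t := by omega
    have h1 : x = 30 * (x / 30) + x % 30 := by omega
    have h2 : x + 1 = 30 * (x / 30) + (x % 30 + 1) := by omega
    have hr : x % 30 < 30 := Nat.mod_lt _ (by norm_num)
    have e1 : F x = phi t ht (x / 30) (g (x / 30) (x % 30)) := rfl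
    have e2 : F (x + 1) = phi t ht (x / 30) (g (x / 30) (x % 30 + 1)) := by
      rw [h2]; exact hF _ _ (by omega)
    rw [e1, e2]
    exact neck_adj ht hxt (gle _ _ hr.le) (gle _ _ (by omega)) (gadj _ _ hr)
  have Fclose : F (30 * t) = F 0 := by
    have e1 : F (30 * t) = phi t ht t 0 := by
      have := hF t 0 (by norm_num)
      rw [g0] at this
      exact this
    have e2 : F 0 = phi t ht 0 0 := by
      have := hF 0 0 (by norm_num)
      rw [g0] at this
      exact this
    rw [e1, e2]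
    apply Fin.ext
    show (30 * t + 0) % (30 * t) = (30 * 0 + 0) % (30 * t)
    simp
  obtain ⟨x, c, hc, hlen, hmem⟩ := exists_cycle (neck t ht) (30 * t) (by omega) F Finj Fadj Fclose
  refine ⟨x, c, ?_, ?_⟩
  · rw [Walk.isHamiltonianCycle_iff_isCycle_and_length_eq]
    refine ⟨hc, ?_⟩
    rw [hlen, Fintype.card_fin]
  · have hlt : 30 * m + a < 30 * t := by omega
    have h1 := hmem (30 * m + a) hlt
    have e1 : F (30 * m + a) = phi t ht m (f a) := by
      have := hF m a (by omega)
      simpa only [g, if_true] using this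
    have e2 : F (30 * m + a + 1) = phi t ht m (f (a + 1)) := by
      have := hF m (a + 1) (by omega)
      simpa only [g, if_true, Nat.add_assoc] using this
    rw [e1, e2] at h1
    rcases h with ⟨h2, h3⟩ | ⟨h2, h3⟩
    · rw [← h2, ← h3]; exact h1
    · rw [Sym2.eq_swap, ← h2, ← h3]; exact h1

theorem neck_edgeProper {t : ℕ} (ht : 2 ≤ t) {k : ℕ} (hk : k ≤ 26) : EdgeProper k (neck t ht) := by
  intro u v huv
  obtain ⟨m, hm, e, he, heq⟩ := neck_adj_elim ht huv
  rw [heq]
  exact ⟨fun i h3 hi => neck_cycle ht hm he h3 (hi.trans hk), neck_ham ht hm he⟩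

theorem neck_card {t : ℕ} (ht : 2 ≤ t) : (neck t ht).edgeSet.ncard ≤ 59 * t := by
  classical
  let S : Finset (Sym2 (Fin (30 * t))) :=
    (Finset.range t ×ˢ E.toFinset).image (fun p => s(phi t ht p.1 p.2.1, phi t ht p.1 p.2.2))
  have hsub : (neck t ht).edgeSet ⊆ (S : Set (Sym2 (Fin (30 * t)))) := by
    intro z hz
    induction z with
    | h x y =>
      rw [SimpleGraph.mem_edgeSet] at hz
      obtain ⟨m, hm, e, he, heq⟩ := neck_adj_elim ht hz
      rw [heq]
      rw [Finset.mem_coe, Finset.mem_image]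
      exact ⟨(m, e), by simp [hm, he], rfl⟩
  calc (neck t ht).edgeSet.ncard ≤ (S : Set (Sym2 (Fin (30 * t)))).ncard :=
        Set.ncard_le_ncard hsub (Finset.finite_toSet S)
    _ = S.card := Set.ncard_coe_finset S
    _ ≤ (Finset.range t ×ˢ E.toFinset).card := Finset.card_image_le
    _ = t * E.toFinset.card := by rw [Finset.card_product, Finset.card_range]
    _ ≤ t * 59 := by
        apply Nat.mul_le_mul_left
        calc E.toFinset.card ≤ E.length := E.toFinset_card_le
          _ = 59 := E_length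
    _ = 59 * t := Nat.mul_comm _ _

end Pool.Agent.H.MP_0ca78d_co
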